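import Mathlib

/-!
# MP_4671c3_co: the rank needed to embed both mates of a latin bitrade is logarithmic

If both mates of a latin bitrade `(W, B)` embed in some abelian group, then both embed in an
abelian group with at most `2 log₂ |W| + 4` generators.  So the rank cannot grow linearly.
-/

set_option autoImplicit false

namespace Pool.Agent.Results.MP_4671c3_co.LogarithmicRank

/-- `P` is a partial latin square: a finite set of triples (row, column, symbol) in which any two
coordinates determine the third. -/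
def IsPartialLatin {R C S : Type} (P : Finset (R × C × S)) : Prop :=
  (∀ r c s s', (r, c, s) ∈ P → (r, c, s') ∈ P → s = s') ∧
  (∀ r s c c', (r, c, s) ∈ P → (r, c', s) ∈ P → c = c') ∧
  (∀ c s r r', (r, c, s) ∈ P → (r', c, s) ∈ P → r = r')

/-- `(W, B)` is a latin bitrade: nonempty partial latin squares filling the same cells, with the
same symbols in every row and in every column, and with no common entry. -/
def IsBitrade {R C S : Type} (W B : Finset (R × C × S)) : Prop :=
  W.Nonempty ∧ B.Nonempty ∧ IsPartialLatin W ∧ IsPartialLatin B ∧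
  (∀ r c, (∃ s, (r, c, s) ∈ W) ↔ ∃ s, (r, c, s) ∈ B) ∧
  (∀ r s, (∃ c, (r, c, s) ∈ W) ↔ ∃ c, (r, c, s) ∈ B) ∧
  (∀ c s, (∃ r, (r, c, s) ∈ W) ↔ ∃ r, (r, c, s) ∈ B) ∧
  ∀ t, t ∈ W → t ∉ B

/-- `P` embeds in the abelian group `G`: there are maps from the rows, columns and symbols to `G`,
injective on the rows, columns and symbols that occur in `P`, with `α r + β c = γ s` for all
`(r, c, s) ∈ P`. -/
def Embeds {R C S : Type} (P : Finset (R × C × S)) (G : Type) [AddCommGroup G] : Prop :=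
  ∃ (α : R → G) (β : C → G) (γ : S → G),
    Set.InjOn α {r | ∃ c s, (r, c, s) ∈ P} ∧
    Set.InjOn β {c | ∃ r s, (r, c, s) ∈ P} ∧
    Set.InjOn γ {s | ∃ r c, (r, c, s) ∈ P} ∧
    ∀ r c s, (r, c, s) ∈ P → α r + β c = γ s

/-- both mates embed in one abelian group -/
def BothEmbed {R C S : Type} (W B : Finset (R × C × S)) : Prop :=
  ∃ (G : Type) (_ : AddCommGroup G), Embeds W G ∧ Embeds B G

/-- both mates embed in an abelian group that is generated by at most `k` elements -/
def BothEmbedRank {R C S : Type} (W B : Finset (R × C × S)) (k : ℕ) : Prop :=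
  ∃ (G : Type) (_ : AddCommGroup G),
    (∃ T : Finset G, T.card ≤ k ∧ AddSubgroup.closure (T : Set G) = ⊤) ∧ Embeds W G ∧ Embeds B G

/-- `ρ(W, B)`: the least rank (minimal number of generators) of an abelian group in which both
mates embed. -/
noncomputable def rho {R C S : Type} (W B : Finset (R × C × S)) : ℕ :=
  sInf {k | BothEmbedRank W B k}

abbrev Tor := AddCircle (1 : ℚ)

/-- one character kills at most half of a finite set of nonzero elements -/
theorem exists_half {G : Type} [AddCommGroup G] (D : Finset G) (hD : ∀ d ∈ D, d ≠ 0) :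
    ∃ χ : G →+ Tor, 2 * (D.filter (fun d => χ d = 0)).card ≤ D.card := by
  classical
  have hex : ∀ d : G, ∃ χ : G →+ Tor, d ≠ 0 → χ d ≠ 0 := by
    intro d
    by_cases h : d = 0
    · exact ⟨0, fun h' => absurd h h'⟩
    · obtain ⟨c, hc⟩ := CharacterModule.exists_character_apply_ne_zero_of_ne_zero h
      exact ⟨c, fun _ => hc⟩
  choose ψ hψ using hex
  let X : Finset G → (G →+ Tor) := fun T => ∑ e ∈ T, ψ e
  -- for a fixed `d`, at most half of the `T` kill `d`
  have hfix : ∀ d ∈ D, 2 * (D.powerset.filter (fun T => X T d = 0)).card ≤ D.powerset.card := by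
    intro d hd
    have hle : (D.powerset.filter (fun T => X T d = 0)).card ≤
        (D.powerset.filter (fun T => ¬ X T d = 0)).card := by
      apply Finset.card_le_card_of_injOn (fun T => if d ∈ T then T.erase d else insert d T)
      · intro T hT
        obtain ⟨hT1, hT2⟩ := Finset.mem_filter.mp (Finset.mem_coe.mp hT)
        rw [Finset.mem_powerset] at hT1
        refine Finset.mem_coe.mpr (Finset.mem_filter.mpr ⟨?_, ?_⟩)
        · rw [Finset.mem_powerset]
          by_cases h : d ∈ T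
          · simp only [h, if_true]
            exact (Finset.erase_subset _ _).trans hT1
          · simp only [h, if_false]
            exact Finset.insert_subset hd hT1
        · by_cases h : d ∈ T
          · simp only [h, if_true]
            intro h0
            have h1 : X T d = ψ d d + X (T.erase d) d := by
              show (∑ e ∈ T, ψ e) d = _
              rw [← Finset.add_sum_erase _ _ h]
              rfl
            rw [h0, hT2, add_zero] at h1
            exact hψ d (hD d hd) h1.symm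
          · simp only [h, if_false]
            intro h0
            have h1 : X (insert d T) d = ψ d d + X T d := by
              show (∑ e ∈ insert d T, ψ e) d = _
              rw [Finset.sum_insert h]
              rfl
            rw [h0, hT2, add_zero] at h1
            exact hψ d (hD d hd) h1.symm
      · intro T _ T' _ h
        simp only at h
        by_cases h1 : d ∈ T <;> by_cases h2 : d ∈ T' <;> simp only [h1, h2, if_true, if_false] at h
        · rw [← Finset.insert_erase h1, ← Finset.insert_erase h2, h]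
        · exact absurd (h ▸ Finset.mem_insert_self d T') (Finset.notMem_erase d T)
        · exact absurd (h ▸ Finset.mem_insert_self d T) (Finset.notMem_erase d T')
        · rw [← Finset.erase_insert h1, ← Finset.erase_insert h2, h]
    have := Finset.card_filter_add_card_filter_not (s := D.powerset) (fun T => X T d = 0)
    omega
  by_contra hcon
  push Not at hcon
  have h1 : ∑ T ∈ D.powerset, (D.filter (fun d => X T d = 0)).card =
      ∑ d ∈ D, (D.powerset.filter (fun T => X T d = 0)).card := by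
    simp only [Finset.card_filter]
    rw [Finset.sum_comm]
  have h2 : ∑ T ∈ D.powerset, D.card < ∑ T ∈ D.powerset, 2 * (D.filter (fun d => X T d = 0)).card :=
    Finset.sum_lt_sum_of_nonempty ⟨∅, Finset.empty_mem_powerset D⟩ (fun T _ => hcon (X T))
  have h3 : ∑ d ∈ D, 2 * (D.powerset.filter (fun T => X T d = 0)).card ≤
      ∑ d ∈ D, D.powerset.card := Finset.sum_le_sum hfix
  rw [← Finset.mul_sum, h1] at h2
  rw [← Finset.mul_sum] at h3
  rw [Finset.sum_const, smul_eq_mul] at h2 h3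
  rw [mul_comm D.card] at h3
  omega

/-- fewer than `2 ^ m` nonzero elements are detected by `m` characters -/
theorem exists_sep {G : Type} [AddCommGroup G] (m : ℕ) : ∀ D : Finset G, (∀ d ∈ D, d ≠ 0) →
    D.card < 2 ^ m → ∃ χ : Fin m → (G →+ Tor), ∀ d ∈ D, ∃ i, χ i d ≠ 0 := by
  classical
  induction m with
  | zero =>
    intro D _ hc
    have : D = ∅ := by rw [← Finset.card_eq_zero]; omega
    subst this
    exact ⟨fun i => i.elim0, fun d hd => absurd hd (Finset.notMem_empty d)⟩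
  | succ m ih =>
    intro D hD hc
    obtain ⟨χ, hχ⟩ := exists_half D hD
    obtain ⟨χ', hχ'⟩ := ih (D.filter (fun d => χ d = 0))
      (fun d hd => hD d (Finset.mem_filter.mp hd).1) (by rw [pow_succ] at hc; omega)
    refine ⟨Fin.cons χ χ', fun d hd => ?_⟩
    by_cases h : χ d = 0
    · obtain ⟨i, hi⟩ := hχ' d (Finset.mem_filter.mpr ⟨hd, h⟩)
      exact ⟨i.succ, by simpa using hi⟩
    · exact ⟨0, by simpa using h⟩

/-- An embeddable partial latin square with `3 N² < 2 ^ m` embeds in `(ℚ/ℤ) ^ m`. -/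
theorem embeds_torus {R C S : Type} (P : Finset (R × C × S)) (G : Type) [AddCommGroup G]
    (h : Embeds P G) (m : ℕ) (hm : 3 * P.card ^ 2 < 2 ^ m) : Embeds P (Fin m → Tor) := by
  classical
  obtain ⟨α, β, γ, hα, hβ, hγ, hsum⟩ := h
  let D : Finset G :=
    ((P ×ˢ P).image (fun t => α t.1.1 - α t.2.1) ∪
      ((P ×ˢ P).image (fun t => β t.1.2.1 - β t.2.2.1) ∪
        (P ×ˢ P).image (fun t => γ t.1.2.2 - γ t.2.2.2))).filter (fun d => d ≠ 0)
  have hDcard : D.card ≤ 3 * P.card ^ 2 := by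
    have h1 : ∀ f : (R × C × S) × (R × C × S) → G, ((P ×ˢ P).image f).card ≤ P.card ^ 2 := by
      intro f
      refine Finset.card_image_le.trans ?_
      rw [Finset.card_product, pow_two]
    refine (Finset.card_filter_le _ _).trans ((Finset.card_union_le _ _).trans ?_)
    have h2 := Finset.card_union_le ((P ×ˢ P).image (fun t => β t.1.2.1 - β t.2.2.1))
      ((P ×ˢ P).image (fun t => γ t.1.2.2 - γ t.2.2.2))
    have h3 := h1 (fun t => α t.1.1 - α t.2.1)
    have h4 := h1 (fun t => β t.1.2.1 - β t.2.2.1)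
    have h5 := h1 (fun t => γ t.1.2.2 - γ t.2.2.2)
    omega
  obtain ⟨χ, hχ⟩ := exists_sep m D (fun d hd => (Finset.mem_filter.mp hd).2) (by omega)
  have key : ∀ a b : G, (∀ i, χ i a = χ i b) → a - b ∉ D := by
    intro a b hab hD
    obtain ⟨i, hi⟩ := hχ _ hD
    apply hi
    rw [map_sub, hab i, sub_self]
  refine ⟨fun r i => χ i (α r), fun c i => χ i (β c), fun s i => χ i (γ s), ?_, ?_, ?_, ?_⟩
  · rintro r ⟨c, s, h1⟩ r' ⟨c', s', h2⟩ he
    by_contra hne
    apply key (α r) (α r') (fun i => congrFun he i)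
    refine Finset.mem_filter.mpr ⟨Finset.mem_union_left _ (Finset.mem_image.mpr
      ⟨((r, c, s), (r', c', s')), Finset.mem_product.mpr ⟨h1, h2⟩, rfl⟩), ?_⟩
    intro h0
    exact hne (hα ⟨c, s, h1⟩ ⟨c', s', h2⟩ (sub_eq_zero.mp h0))
  · rintro c ⟨r, s, h1⟩ c' ⟨r', s', h2⟩ he
    by_contra hne
    apply key (β c) (β c') (fun i => congrFun he i)
    refine Finset.mem_filter.mpr ⟨Finset.mem_union_right _ (Finset.mem_union_left _
      (Finset.mem_image.mpr ⟨((r, c, s), (r', c', s')), Finset.mem_product.mpr ⟨h1, h2⟩, rfl⟩)), ?_⟩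
    intro h0
    exact hne (hβ ⟨r, s, h1⟩ ⟨r', s', h2⟩ (sub_eq_zero.mp h0))
  · rintro s ⟨r, c, h1⟩ s' ⟨r', c', h2⟩ he
    by_contra hne
    apply key (γ s) (γ s') (fun i => congrFun he i)
    refine Finset.mem_filter.mpr ⟨Finset.mem_union_right _ (Finset.mem_union_right _
      (Finset.mem_image.mpr ⟨((r, c, s), (r', c', s')), Finset.mem_product.mpr ⟨h1, h2⟩, rfl⟩)), ?_⟩
    intro h0
    exact hne (hγ ⟨r, c, h1⟩ ⟨r', c', h2⟩ (sub_eq_zero.mp h0))
  · intro r c s hP
    funext i
    show χ i (α r) + χ i (β c) = χ i (γ s)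
    rw [← map_add, hsum r c s hP]

/-- the cyclic subgroup of `ℚ/ℤ` generated by `1 / M` -/
abbrev Cyc (M : ℕ) : AddSubgroup Tor := AddSubgroup.zmultiples (((1 / (M : ℚ)) : ℚ) : Tor)

theorem mem_cyc {M : ℕ} (hM : 0 < M) {x : Tor} (hx : M • x = 0) : x ∈ Cyc M := by
  obtain ⟨k, _, rfl⟩ := (AddCircle.nsmul_eq_zero_iff (p := (1 : ℚ)) hM).mp hx
  rw [AddSubgroup.mem_zmultiples_iff]
  refine ⟨(k : ℤ), ?_⟩
  rw [← AddCircle.coe_zsmul]
  congr 1
  simp [div_eq_mul_inv]

/-- the power `Cyc M ^ m` has `m` generators -/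
theorem generated (M m : ℕ) : ∃ T : Finset (Fin m → Cyc M), T.card ≤ m ∧
    AddSubgroup.closure (T : Set (Fin m → Cyc M)) = ⊤ := by
  classical
  let g : Cyc M := ⟨_, AddSubgroup.mem_zmultiples _⟩
  refine ⟨Finset.univ.image (fun i : Fin m => (Pi.single i g : Fin m → Cyc M)), ?_, ?_⟩
  · refine Finset.card_image_le.trans ?_
    simp
  · rw [eq_top_iff]
    intro x _
    have h1 : x = ∑ i, (Pi.single i (x i) : Fin m → Cyc M) := by
      rw [Finset.univ_sum_single]
    rw [h1]
    refine AddSubgroup.sum_mem _ fun i _ => ?_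
    obtain ⟨k, hk⟩ := AddSubgroup.mem_zmultiples_iff.mp (x i).2
    have h2 : x i = k • g := Subtype.ext (by rw [← hk]; rfl)
    rw [h2, Pi.single_smul]
    exact AddSubgroup.zsmul_mem _ (AddSubgroup.subset_closure (by
      rw [Finset.coe_image]
      exact ⟨i, Finset.mem_coe.mpr (Finset.mem_univ i), rfl⟩)) k

theorem exists_nsmul (x : Tor) : ∃ M : ℕ, 0 < M ∧ M • x = 0 := by
  obtain ⟨q, rfl⟩ := QuotientAddGroup.mk_surjective x
  refine ⟨q.den, q.pos, ?_⟩
  show q.den • ((q : ℚ) : Tor) = 0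
  rw [← AddCircle.coe_nsmul, AddCircle.coe_eq_zero_iff]
  refine ⟨q.num, ?_⟩
  rw [zsmul_one, nsmul_eq_mul, mul_comm, Rat.mul_den_eq_num]

theorem exists_nsmul_finset (X : Finset Tor) : ∃ M : ℕ, 0 < M ∧ ∀ x ∈ X, M • x = 0 := by
  classical
  induction X using Finset.induction_on with
  | empty => exact ⟨1, one_pos, fun x hx => absurd hx (Finset.notMem_empty x)⟩
  | insert a X _ ih =>
    obtain ⟨M, hM, h⟩ := ih
    obtain ⟨N, hN, h'⟩ := exists_nsmul a
    refine ⟨M * N, Nat.mul_pos hM hN, fun x hx => ?_⟩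
    rcases Finset.mem_insert.mp hx with rfl | hx
    · rw [mul_nsmul', h', nsmul_zero]
    · rw [mul_nsmul, h x hx, nsmul_zero]

/-- from `(ℚ/ℤ) ^ m` to a finite subgroup -/
theorem embeds_cyc {R C S : Type} (P : Finset (R × C × S)) (m : ℕ)
    (h : Embeds P (Fin m → Tor)) :
    ∃ M : ℕ, 0 < M ∧ ∀ N : ℕ, 0 < N → M ∣ N → Embeds P (Fin m → Cyc N) := by
  classical
  obtain ⟨α, β, γ, hα, hβ, hγ, hsum⟩ := h
  obtain ⟨M, hM, hX⟩ := exists_nsmul_finset
    ((P ×ˢ (Finset.univ : Finset (Fin m))).image (fun t => α t.1.1 t.2) ∪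
      (P ×ˢ (Finset.univ : Finset (Fin m))).image (fun t => β t.1.2.1 t.2))
  refine ⟨M, hM, fun N hN hMN => ?_⟩
  have hmem : ∀ x : Tor, M • x = 0 → x ∈ Cyc N := by
    intro x hx
    obtain ⟨k, rfl⟩ := hMN
    exact mem_cyc hN (by rw [mul_nsmul, hx, nsmul_zero])
  have hαm : ∀ r c s, (r, c, s) ∈ P → ∀ i, α r i ∈ Cyc N := by
    intro r c s hP i
    exact hmem _ (hX _ (Finset.mem_union_left _ (Finset.mem_image.mpr
      ⟨((r, c, s), i), Finset.mem_product.mpr ⟨hP, Finset.mem_univ _⟩, rfl⟩)))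
  have hβm : ∀ r c s, (r, c, s) ∈ P → ∀ i, β c i ∈ Cyc N := by
    intro r c s hP i
    exact hmem _ (hX _ (Finset.mem_union_right _ (Finset.mem_image.mpr
      ⟨((r, c, s), i), Finset.mem_product.mpr ⟨hP, Finset.mem_univ _⟩, rfl⟩)))
  have hγm : ∀ r c s, (r, c, s) ∈ P → ∀ i, γ s i ∈ Cyc N := by
    intro r c s hP i
    rw [← hsum r c s hP]
    exact AddSubgroup.add_mem _ (hαm r c s hP i) (hβm r c s hP i)
  let lift : (Fin m → Tor) → (Fin m → Cyc N) := fun x i =>
    if hx : x i ∈ Cyc N then ⟨x i, hx⟩ else 0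
  have hlift : ∀ x : Fin m → Tor, (∀ i, x i ∈ Cyc N) → ∀ i, ((lift x i : Cyc N) : Tor) = x i := by
    intro x hx i
    simp only [lift, hx i, dif_pos]
  refine ⟨fun r => lift (α r), fun c => lift (β c), fun s => lift (γ s), ?_, ?_, ?_, ?_⟩
  · rintro r ⟨c, s, h1⟩ r' ⟨c', s', h2⟩ he
    refine hα ⟨c, s, h1⟩ ⟨c', s', h2⟩ ?_
    funext i
    rw [← hlift _ (hαm r c s h1) i, ← hlift _ (hαm r' c' s' h2) i]
    exact congrArg (fun w : Fin m → Cyc N => ((w i : Cyc N) : Tor)) he
  · rintro c ⟨r, s, h1⟩ c' ⟨r', s', h2⟩ he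
    refine hβ ⟨r, s, h1⟩ ⟨r', s', h2⟩ ?_
    funext i
    rw [← hlift _ (hβm r c s h1) i, ← hlift _ (hβm r' c' s' h2) i]
    exact congrArg (fun w : Fin m → Cyc N => ((w i : Cyc N) : Tor)) he
  · rintro s ⟨r, c, h1⟩ s' ⟨r', c', h2⟩ he
    refine hγ ⟨r, c, h1⟩ ⟨r', c', h2⟩ ?_
    funext i
    rw [← hlift _ (hγm r c s h1) i, ← hlift _ (hγm r' c' s' h2) i]
    exact congrArg (fun w : Fin m → Cyc N => ((w i : Cyc N) : Tor)) he
  · intro r c s hP
    funext i
    apply Subtype.ext
    show ((lift (α r) i : Cyc N) : Tor) + ((lift (β c) i : Cyc N) : Tor) = _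
    rw [hlift _ (hαm r c s hP), hlift _ (hβm r c s hP), hlift _ (hγm r c s hP)]
    exact congrFun (hsum r c s hP) i

/-- the mates have the same size -/
theorem card_eq {R C S : Type} {W B : Finset (R × C × S)} (h : IsBitrade W B) :
    W.card = B.card := by
  classical
  obtain ⟨_, _, hW, hB, hcell, _⟩ := h
  have h1 : ∀ P : Finset (R × C × S), IsPartialLatin P →
      (P.image (fun t => (t.1, t.2.1))).card = P.card := by
    intro P hP
    apply Finset.card_image_of_injOn
    rintro ⟨r, c, s⟩ h1 ⟨r', c', s'⟩ h2 he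
    obtain ⟨rfl, rfl⟩ := Prod.mk.inj he
    rw [hP.1 r c s s' h1 h2]
  rw [← h1 W hW, ← h1 B hB]
  congr 1
  ext ⟨r, c⟩
  simp only [Finset.mem_image, Prod.mk.injEq, Prod.exists]
  constructor
  · rintro ⟨r', c', s, hm, rfl, rfl⟩
    obtain ⟨s', hs'⟩ := (hcell r' c').mp ⟨s, hm⟩
    exact ⟨r', c', s', hs', rfl, rfl⟩
  · rintro ⟨r', c', s, hm, rfl, rfl⟩
    obtain ⟨s', hs'⟩ := (hcell r' c').mpr ⟨s, hm⟩
    exact ⟨r', c', s', hs', rfl, rfl⟩

theorem main {R C S : Type} {W B : Finset (R × C × S)} (h : IsBitrade W B) (he : BothEmbed W B) :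
    BothEmbedRank W B (2 * Nat.log 2 W.card + 4) := by
  obtain ⟨G, _, hW, hB⟩ := he
  set m := 2 * Nat.log 2 W.card + 4 with hm
  have hlt : W.card < 2 ^ (Nat.log 2 W.card + 1) := Nat.lt_pow_succ_log_self (by norm_num) _
  have hbound : 3 * W.card ^ 2 < 2 ^ m := by
    have h1 : W.card ^ 2 < (2 ^ (Nat.log 2 W.card + 1)) ^ 2 :=
      Nat.pow_lt_pow_left hlt (by norm_num)
    have h2 : 2 ^ m = 4 * (2 ^ (Nat.log 2 W.card + 1)) ^ 2 := by
      rw [hm, ← pow_mul, show 2 * Nat.log 2 W.card + 4 = 2 + (Nat.log 2 W.card + 1) * 2 by ring,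
        pow_add]
      norm_num
    omega
  obtain ⟨M₁, hM₁, h1⟩ := embeds_cyc W m (embeds_torus W G hW m hbound)
  obtain ⟨M₂, hM₂, h2⟩ := embeds_cyc B m (embeds_torus B G hB m (by rw [← card_eq h]; exact hbound))
  exact ⟨Fin m → Cyc (M₁ * M₂), inferInstance, generated _ m,
    h1 _ (Nat.mul_pos hM₁ hM₂) (dvd_mul_right _ _), h2 _ (Nat.mul_pos hM₁ hM₂) (dvd_mul_left _ _)⟩

/-- If both mates of a latin bitrade embed in some abelian group then
`ρ(W, B) ≤ 2 log₂ |W| + 4`, and consequently there is no family of latin bitrades, with both mates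
embeddable and with sizes tending to infinity, along which `ρ` grows linearly in the size. -/
theorem result :
    (∀ (R C S : Type) (W B : Finset (R × C × S)), IsBitrade W B → BothEmbed W B →
      rho W B ≤ 2 * Nat.log 2 W.card + 4 ∧ BothEmbedRank W B (rho W B)) ∧
    ¬ ∃ (c : ℝ) (R C S : ℕ → Type) (W B : ∀ n, Finset (R n × C n × S n)), 0 < c ∧
      (∀ n, IsBitrade (W n) (B n) ∧ BothEmbed (W n) (B n)) ∧
      Filter.Tendsto (fun n => (W n).card) Filter.atTop Filter.atTop ∧
      ∀ n, c * ((W n).card : ℝ) ≤ (rho (W n) (B n) : ℝ) := by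
  have h1 : ∀ (R C S : Type) (W B : Finset (R × C × S)), IsBitrade W B → BothEmbed W B →
      rho W B ≤ 2 * Nat.log 2 W.card + 4 ∧ BothEmbedRank W B (rho W B) := by
    intro R C S W B h he
    have h1 := main h he
    have h2 : sInf {k | BothEmbedRank W B k} ∈ {k | BothEmbedRank W B k} := Nat.sInf_mem ⟨_, h1⟩
    exact ⟨Nat.sInf_le h1, h2⟩
  refine ⟨h1, ?_⟩
  rintro ⟨c, R, C, S, W, B, hc, hWB, hlim, hlin⟩
  -- `c * x ≤ 2 * log₂ x + 4` fails for large `x`
  have hlog : Filter.Tendsto (fun x : ℕ => Real.log (x : ℝ) / (x : ℝ)) Filter.atTop (nhds 0) := by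
    have h2 : Filter.Tendsto (fun x : ℝ => Real.log x / x) Filter.atTop (nhds 0) := by
      have := Real.isLittleO_log_id_atTop.tendsto_div_nhds_zero
      simpa using this
    exact h2.comp tendsto_natCast_atTop_atTop
  have hinv : Filter.Tendsto (fun x : ℕ => (4 : ℝ) / (x : ℝ)) Filter.atTop (nhds 0) :=
    tendsto_const_div_atTop_nhds_zero_nat 4
  have hsum : Filter.Tendsto (fun x : ℕ => 2 / Real.log 2 * (Real.log (x : ℝ) / (x : ℝ)) +
      (4 : ℝ) / (x : ℝ)) Filter.atTop (nhds 0) := by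
    simpa using (hlog.const_mul (2 / Real.log 2)).add hinv
  have hev : ∀ᶠ x : ℕ in Filter.atTop, 2 / Real.log 2 * (Real.log (x : ℝ) / (x : ℝ)) +
      (4 : ℝ) / (x : ℝ) < c := hsum.eventually (gt_mem_nhds hc)
  obtain ⟨n, hn, hn1⟩ := ((hlim.eventually hev).and
    (hlim.eventually (Filter.eventually_ge_atTop 1))).exists
  have hb := (h1 _ _ _ (W n) (B n) (hWB n).1 (hWB n).2).1
  have hl := hlin n
  set x := (W n).card with hx
  have hxpos : (0 : ℝ) < (x : ℝ) := by exact_mod_cast hn1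
  have hlog2 : 0 < Real.log 2 := Real.log_pos (by norm_num)
  have h3 : (Nat.log 2 x : ℝ) ≤ Real.log x / Real.log 2 := by
    rw [le_div_iff₀ hlog2, ← Real.log_pow]
    apply Real.log_le_log (by positivity)
    exact_mod_cast Nat.pow_log_le_self 2 (by omega)
  have h4 : (rho (W n) (B n) : ℝ) ≤ 2 * (Real.log x / Real.log 2) + 4 := by
    have : (rho (W n) (B n) : ℝ) ≤ 2 * (Nat.log 2 x : ℝ) + 4 := by exact_mod_cast hb
    linarith
  have h5 : c * (x : ℝ) ≤ 2 * (Real.log x / Real.log 2) + 4 := hl.trans h4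
  have h6 : (2 / Real.log 2 * (Real.log (x : ℝ) / (x : ℝ)) + (4 : ℝ) / (x : ℝ)) * x =
      2 * (Real.log x / Real.log 2) + 4 := by
    field_simp
  have h7 : (2 / Real.log 2 * (Real.log (x : ℝ) / (x : ℝ)) + (4 : ℝ) / (x : ℝ)) * x < c * x :=
    mul_lt_mul_of_pos_right hn hxpos
  rw [h6] at h7
  linarith

end Pool.Agent.Results.MP_4671c3_co.LogarithmicRank
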